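import Mathlib

/-!
# Krull dimensions
-/

namespace Pool.Agent.Helper62.TS

theorem dim_away_le {R : Type} [CommRing R] (r : R) :
    ringKrullDim (Localization.Away r) ≤ ringKrullDim R := by
  apply Order.krullDim_le_of_strictMono (PrimeSpectrum.comap (algebraMap R (Localization.Away r)))
  apply Monotone.strictMono_of_injective
  · intro a b hab
    exact Ideal.comap_mono hab
  · exact PrimeSpectrum.localization_comap_injective _ (.powers r)

theorem dim_integral_le {R S : Type} [CommRing R] [CommRing S] [Algebra R S]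
    [Algebra.IsIntegral R S] : ringKrullDim S ≤ ringKrullDim R := by
  apply Order.krullDim_le_of_strictMono (PrimeSpectrum.comap (algebraMap R S))
  intro a b hab
  have : a.asIdeal.comap (algebraMap R S) < b.asIdeal.comap (algebraMap R S) :=
    Ideal.IsIntegral.comap_lt_comap hab
  exact this

theorem dim_plane_curve_le {k : Type} [Field k] {h : MvPolynomial (Fin 2) k} (hh : h ≠ 0) :
    ringKrullDim (MvPolynomial (Fin 2) k ⧸ Ideal.span {h}) ≤ 1 := by
  have h1 := ringKrullDim_quotient_succ_le_of_nonZeroDivisor (mem_nonZeroDivisors_of_ne_zero hh)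
  have h2 : ringKrullDim (MvPolynomial (Fin 2) k) = 2 := by
    rw [MvPolynomial.ringKrullDim_of_isNoetherianRing, ringKrullDim_eq_zero_of_field]
    simp
  rw [h2] at h1
  generalize ringKrullDim (MvPolynomial (Fin 2) k ⧸ Ideal.span {h}) = x at h1 ⊢
  induction x with
  | bot => exact bot_le
  | coe n =>
    have h3 : n + 1 ≤ 2 := WithBot.coe_le_coe.1 h1
    have h4 : n ≤ 1 := by
      have h5 : n + 1 ≤ 1 + 1 := by
        rw [show (1 : ℕ∞) + 1 = 2 by norm_num]; exact h3
      exact (ENat.add_le_add_iff_right (by simp)).1 h5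
    exact_mod_cast h4

end Pool.Agent.Helper62.TS
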