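import Pool.Agent.Helper65.Mor.MorinDefs

/-!
# Classes of algebras closed under gluing, Kummer covers and tensor products
-/

namespace Pool.Agent.Helper62.TS

open TensorProduct
open Pool.Agent.Helper65.Mor (CurveProduct)

/-- adjoining a `d`-th root of `a` -/
abbrev Kum (A : Type) [CommRing A] (a : A) (d : ℕ) : Type :=
  AdjoinRoot (Polynomial.X ^ d - Polynomial.C a : Polynomial A)

/-- A class of finitely generated `k`-algebras which is closed under isomorphisms, two-out-of-three
for a principal closed subset and its complement, descent along Kummer covers of degree invertible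
in `k`, tensor products, and which contains all affine curves. -/
structure TClass (k : Type) [Field k] (M : ∀ (A : Type) [CommRing A] [Algebra k A], Prop) :
    Prop where
  ft : ∀ (A : Type) [CommRing A] [Algebra k A], M A → Algebra.FiniteType k A
  iso : ∀ (A B : Type) [CommRing A] [Algebra k A] [CommRing B] [Algebra k B],
    (A ≃ₐ[k] B) → M A → M B
  glue : ∀ (A : Type) [CommRing A] [Algebra k A] (a : A), Algebra.FiniteType k A →
    M (A ⧸ Ideal.span {a}) → M (Localization.Away a) → M A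
  opn : ∀ (A : Type) [CommRing A] [Algebra k A] (a : A),
    M (A ⧸ Ideal.span {a}) → M A → M (Localization.Away a)
  kummer : ∀ (A : Type) [CommRing A] [Algebra k A] (a : A) (d : ℕ), Algebra.FiniteType k A →
    IsUnit a → (d : k) ≠ 0 → M (Kum A a d) → M A
  tensor : ∀ (A B : Type) [CommRing A] [Algebra k A] [CommRing B] [Algebra k B],
    M A → M B → M (A ⊗[k] B)
  curve : ∀ (C : Type) [CommRing C] [Algebra k C], Algebra.FiniteType k C →
    ringKrullDim C ≤ 1 → M C

/-- A property of rings closed under isomorphisms, two-out-of-three and Kummer covers, and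
which contains all products of curves over the field `k`. -/
structure RClass (k : Type) [Field k] (Q : ∀ (A : Type) [CommRing A], Prop) : Prop where
  iso : ∀ (A B : Type) [CommRing A] [CommRing B], (A ≃+* B) → Q A → Q B
  glue : ∀ (A : Type) [CommRing A] [Algebra k A] (a : A), Algebra.FiniteType k A →
    Q (A ⧸ Ideal.span {a}) → Q (Localization.Away a) → Q A
  opn : ∀ (A : Type) [CommRing A] [Algebra k A] (a : A), Algebra.FiniteType k A →
    Q (A ⧸ Ideal.span {a}) → Q A → Q (Localization.Away a)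
  kummer : ∀ (A : Type) [CommRing A] [Algebra k A] (a : A) (d : ℕ), Algebra.FiniteType k A →
    IsUnit a → (d : k) ≠ 0 →
    (∀ (E : Type) [CommRing E] [Algebra k E], CurveProduct k E → Q (E ⊗[k] Kum A a d)) → Q A
  curves : ∀ (A : Type) [CommRing A] [Algebra k A], CurveProduct k A → Q A

section

variable {k : Type} [Field k]

/-- quotients of tensor products -/
noncomputable def quotIso (W A : Type) [CommRing W] [Algebra k W] [CommRing A] [Algebra k A]
    (a : A) : ((W ⊗[k] A) ⧸ Ideal.span {(1 : W) ⊗ₜ[k] a}) ≃ₐ[k] (W ⊗[k] (A ⧸ Ideal.span {a})) :=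
  ((Ideal.quotientEquivAlgOfEq k (by
      rw [Ideal.map_span, Set.image_singleton]; rfl)).trans
    (Algebra.TensorProduct.tensorQuotientEquiv (R := k) k A W (Ideal.span {a})).symm)

/-- localisations of tensor products -/
noncomputable def awayIso (W A : Type) [CommRing W] [Algebra k W] [CommRing A] [Algebra k A]
    (a : A) : Localization.Away ((1 : W) ⊗ₜ[k] a) ≃ₐ[k] W ⊗[k] Localization.Away a :=
  ((IsLocalization.Away.tensorProductEquivTMulRight k W a
    (Localization.Away a)).restrictScalars k).symm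

/-- Kummer covers and isomorphisms -/
noncomputable def kumCongr {A B : Type} [CommRing A] [Algebra k A] [CommRing B] [Algebra k B]
    (e : A ≃ₐ[k] B) (a : A) (b : B) (h : e a = b) (d : ℕ) : Kum A a d ≃ₐ[k] Kum B b d :=
  AdjoinRoot.mapAlgEquiv e _ _ (by subst h; simp)

/-- Kummer covers of tensor products -/
noncomputable def kumIso (W A : Type) [CommRing W] [Algebra k W] [CommRing A] [Algebra k A]
    (a : A) (d : ℕ) : Kum (W ⊗[k] A) ((1 : W) ⊗ₜ[k] a) d ≃ₐ[k] W ⊗[k] Kum A a d :=
  ((AdjoinRoot.tensorAlgEquiv _ _ (by simp)).restrictScalars k).symm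

theorem curveProduct_ft {A : Type} [CommRing A] [Algebra k A] (h : CurveProduct k A) :
    Algebra.FiniteType k A := by
  induction h with
  | base => infer_instance
  | tensor A C hA hC _ ih =>
    have := ih
    have := hC
    exact Algebra.FiniteType.trans (S := A) ih inferInstance
  | iso R S _ e ih => exact Algebra.FiniteType.equiv ih e

theorem curveProduct_tensor {A B : Type} [CommRing A] [Algebra k A] [CommRing B] [Algebra k B]
    (hA : CurveProduct k A) (hB : CurveProduct k B) : CurveProduct k (A ⊗[k] B) := by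
  induction hB with
  | base => exact .iso _ _ hA (Algebra.TensorProduct.rid k k A).symm
  | tensor B C _ hC hC1 ih =>
    exact .iso _ _ (.tensor _ _ ih hC hC1) (Algebra.TensorProduct.assoc k k k A B C)
  | iso B C _ e ih => exact .iso _ _ ih (Algebra.TensorProduct.congr AlgEquiv.refl e)

end

section

variable (k : Type) [Field k] (Q : ∀ (A : Type) [CommRing A], Prop)

/-- The product of `Spec W` with every product of curves is in `Q`. -/
def NN (W : Type) [CommRing W] [Algebra k W] : Prop :=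
  Algebra.FiniteType k W ∧
    ∀ (C : Type) [CommRing C] [Algebra k C], CurveProduct k C → Q (C ⊗[k] W)

/-- The multipliers of the class `NN`. -/
def MM (A : Type) [CommRing A] [Algebra k A] : Prop :=
  Algebra.FiniteType k A ∧ ∀ (W : Type) [CommRing W] [Algebra k W], NN k Q W → NN k Q (W ⊗[k] A)

end

section

variable {k : Type} [Field k] {Q : ∀ (A : Type) [CommRing A], Prop}

theorem ft_tensor {A B : Type} [CommRing A] [Algebra k A] [CommRing B] [Algebra k B]
    (hA : Algebra.FiniteType k A) (hB : Algebra.FiniteType k B) :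
    Algebra.FiniteType k (A ⊗[k] B) :=
  Algebra.FiniteType.trans (S := A) hA inferInstance

theorem ft_away {A : Type} [CommRing A] [Algebra k A] (hA : Algebra.FiniteType k A) (a : A) :
    Algebra.FiniteType k (Localization.Away a) :=
  Algebra.FiniteType.trans (S := A) hA inferInstance

theorem NN.iso (hQ : RClass k Q) {W V : Type} [CommRing W] [Algebra k W] [CommRing V]
    [Algebra k V] (e : W ≃ₐ[k] V) (h : NN k Q W) : NN k Q V := by
  obtain ⟨h1, h2⟩ := h
  refine ⟨Algebra.FiniteType.equiv h1 e, ?_⟩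
  intro C _ _ hC
  exact hQ.iso _ _ (Algebra.TensorProduct.congr (AlgEquiv.refl : C ≃ₐ[k] C) e).toRingEquiv (h2 C hC)

theorem NN.glue (hQ : RClass k Q) {W : Type} [CommRing W] [Algebra k W] (w : W)
    (hW : Algebra.FiniteType k W) (h1 : NN k Q (W ⧸ Ideal.span {w}))
    (h2 : NN k Q (Localization.Away w)) : NN k Q W := by
  refine ⟨hW, ?_⟩
  intro C _ _ hC
  apply hQ.glue (C ⊗[k] W) ((1 : C) ⊗ₜ w) (ft_tensor (curveProduct_ft hC) hW)
  · exact hQ.iso _ _ (quotIso (k := k) C W w).symm.toRingEquiv (h1.2 C hC)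
  · exact hQ.iso _ _ (awayIso (k := k) C W w).symm.toRingEquiv (h2.2 C hC)

theorem NN.opn (hQ : RClass k Q) {W : Type} [CommRing W] [Algebra k W] (w : W)
    (h1 : NN k Q (W ⧸ Ideal.span {w})) (h2 : NN k Q W) : NN k Q (Localization.Away w) := by
  refine ⟨ft_away h2.1 w, ?_⟩
  intro C _ _ hC
  apply hQ.iso _ _ (awayIso (k := k) C W w).toRingEquiv
  apply hQ.opn (C ⊗[k] W) ((1 : C) ⊗ₜ w) (ft_tensor (curveProduct_ft hC) h2.1)
  · exact hQ.iso _ _ (quotIso (k := k) C W w).symm.toRingEquiv (h1.2 C hC)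
  · exact h2.2 C hC

theorem NN.kummer (hQ : RClass k Q) {W : Type} [CommRing W] [Algebra k W] (w : W) (d : ℕ)
    (hW : Algebra.FiniteType k W) (hw : IsUnit w) (hd : (d : k) ≠ 0)
    (h : NN k Q (Kum W w d)) : NN k Q W := by
  refine ⟨hW, ?_⟩
  intro C _ _ hC
  apply hQ.kummer (C ⊗[k] W) ((1 : C) ⊗ₜ w) d (ft_tensor (curveProduct_ft hC) hW)
    (hw.map (Algebra.TensorProduct.includeRight : W →ₐ[k] C ⊗[k] W)) hd
  intro E _ _ hE
  refine hQ.iso _ _ ?_ (h.2 (E ⊗[k] C) (curveProduct_tensor hE hC))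
  exact ((Algebra.TensorProduct.assoc k k k E C (Kum W w d)).trans
    (Algebra.TensorProduct.congr AlgEquiv.refl (kumIso (k := k) C W w d).symm)).toRingEquiv

theorem NN.curve (hQ : RClass k Q) {W : Type} [CommRing W] [Algebra k W] (h : NN k Q W)
    (E : Type) [CommRing E] [Algebra k E] (hE : Algebra.FiniteType k E)
    (hE1 : ringKrullDim E ≤ 1) : NN k Q (W ⊗[k] E) := by
  refine ⟨ft_tensor h.1 hE, ?_⟩
  intro C _ _ hC
  have e : ((C ⊗[k] E) ⊗[k] W) ≃ₐ[k] (C ⊗[k] (W ⊗[k] E)) :=
    (Algebra.TensorProduct.assoc k k k C E W).trans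
      (Algebra.TensorProduct.congr AlgEquiv.refl (Algebra.TensorProduct.comm k E W))
  exact hQ.iso _ _ e.toRingEquiv (h.2 (C ⊗[k] E) (.tensor C E hC hE hE1))

theorem NN.base (hQ : RClass k Q) : NN k Q k := by
  refine ⟨inferInstance, ?_⟩
  intro C _ _ hC
  exact hQ.iso _ _ (Algebra.TensorProduct.rid k k C).symm.toRingEquiv (hQ.curves C hC)

theorem MM.tclass (hQ : RClass k Q) : TClass k (fun A _ _ => MM k Q A) where
  ft A _ _ h := h.1
  iso A B _ _ _ _ e h := ⟨Algebra.FiniteType.equiv h.1 e, fun W _ _ hW =>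
    (h.2 W hW).iso hQ (Algebra.TensorProduct.congr AlgEquiv.refl e)⟩
  glue A _ _ a hA h1 h2 := ⟨hA, fun W _ _ hW =>
    NN.glue hQ ((1 : W) ⊗ₜ a) (ft_tensor hW.1 hA) ((h1.2 W hW).iso hQ (quotIso W A a).symm)
      ((h2.2 W hW).iso hQ (awayIso W A a).symm)⟩
  opn A _ _ a h1 h2 := ⟨ft_away h2.1 a, fun W _ _ hW =>
    (NN.opn hQ ((1 : W) ⊗ₜ a) ((h1.2 W hW).iso hQ (quotIso W A a).symm)
      (h2.2 W hW)).iso hQ (awayIso W A a)⟩
  kummer A _ _ a d hA ha hd h := ⟨hA, fun W _ _ hW =>
    NN.kummer hQ ((1 : W) ⊗ₜ a) d (ft_tensor hW.1 hA)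
      (ha.map (Algebra.TensorProduct.includeRight : A →ₐ[k] W ⊗[k] A)) hd
      ((h.2 W hW).iso hQ (kumIso W A a d).symm)⟩
  tensor A B _ _ _ _ hA hB := ⟨ft_tensor hA.1 hB.1, fun W _ _ hW =>
    (hB.2 _ (hA.2 W hW)).iso hQ (Algebra.TensorProduct.assoc k k k W A B)⟩
  curve C _ _ hC hC1 := ⟨hC, fun W _ _ hW => hW.curve hQ C hC hC1⟩

theorem MM.mem (hQ : RClass k Q) {A : Type} [CommRing A] [Algebra k A] (h : MM k Q A) : Q A := by
  have h1 := (h.2 k (NN.base hQ)).2 k .base
  exact hQ.iso _ _ ((Algebra.TensorProduct.lid k _).trans (Algebra.TensorProduct.lid k A)).toRingEquiv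
    h1

end

end Pool.Agent.Helper62.TS
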