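import Mathlib.RingTheory.MvPolynomial.WeightedHomogeneous

/-!
# Read-once polynomials
-/

namespace Pool.Agent.Helper62.TS

open MvPolynomial

/-- Read-once quasi-homogeneous polynomials over `k`. A variable is read-once, of any degree.
If `f 0` and `f 1` are read-once of degrees `m 0` and `m 1`, in disjoint sets of variables
`ι 0` and `ι 1`, and `h` is a nonzero polynomial in two variables which is homogeneous of degree
`n` for the weights `m 0` and `m 1`, with `n` invertible in `k`, then `h (f 0, f 1)` is read-once
of degree `n`. -/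
inductive ReadOnce (k : Type) [Field k] : (ι : Type) → MvPolynomial ι k → ℤ → Prop
  | var (m : ℤ) : ReadOnce k Unit (X ()) m
  | gate (ι : Fin 2 → Type) (f : ∀ j, MvPolynomial (ι j) k) (m : Fin 2 → ℤ)
      (h : MvPolynomial (Fin 2) k) (n : ℤ) :
      (∀ j, ReadOnce k (ι j) (f j) (m j)) → h ≠ 0 → IsWeightedHomogeneous m h n → (n : k) ≠ 0 →
      ReadOnce k (Σ j, ι j) (aeval (fun j => rename (Sigma.mk j) (f j)) h) n

end Pool.Agent.Helper62.TS
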