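import Pool.Agent.Helper62.TS.Core
import Pool.Agent.Helper62.TS.Dim

/-!
# Fibre products over affine space

For functions `t j` on `Spec A` and `φ j` on `Spec R` the algebra `Fib k t R φ` is the coordinate
ring of the closed subscheme `t j = φ j` of `Spec R × Spec A`.
-/

namespace Pool.Agent.Helper62.TS

open TensorProduct

section

variable (k : Type) [Field k] {J : Type} {A : Type} [CommRing A] [Algebra k A] (t : J → A)

/-- the ideal of the relations `t j = φ j` -/
def relIdeal (R : Type) [CommRing R] [Algebra k R] (φ : J → R) : Ideal (R ⊗[k] A) :=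
  Ideal.span (Set.range fun j => (1 : R) ⊗ₜ[k] t j - φ j ⊗ₜ[k] (1 : A))

/-- the coordinate ring of the closed subscheme `t j = φ j` of `Spec R × Spec A` -/
abbrev Fib (R : Type) [CommRing R] [Algebra k R] (φ : J → R) : Type :=
  (R ⊗[k] A) ⧸ relIdeal k t R φ

/-- base change -/
noncomputable def fibBase (R : Type) [CommRing R] [Algebra k R] (φ : J → R) (R' : Type)
    [CommRing R'] [Algebra k R'] [Algebra R R'] [IsScalarTower k R R'] :
    (R' ⊗[R] Fib k t R φ) ≃ₐ[R'] Fib k t R' (fun j => algebraMap R R' (φ j)) :=
  (Algebra.TensorProduct.tensorQuotientEquiv (R := R) R' (R ⊗[k] A) R' (relIdeal k t R φ)).trans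
    (Ideal.quotientEquivAlg _ _ (Algebra.TensorProduct.cancelBaseChange k R R' R' A) (by
      rw [relIdeal, relIdeal, Ideal.map_span, Ideal.map_span, ← Set.range_comp, ← Set.range_comp]
      congr 2
      ext j
      simp [Function.comp_def, tmul_sub, Algebra.smul_def]))

theorem fib_ft [Algebra.FiniteType k A] (R : Type) [CommRing R] [Algebra k R]
    [Algebra.FiniteType k R] (φ : J → R) : Algebra.FiniteType k (Fib k t R φ) := by
  have : Algebra.FiniteType k (R ⊗[k] A) := ft_tensor ‹_› ‹_›
  infer_instance

end

section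

variable {k : Type} [Field k] {J : Type} {A : Type} [CommRing A] [Algebra k A] {t : J → A}
  {M : ∀ (A : Type) [CommRing A] [Algebra k A], Prop}

theorem fib_glue (hM : TClass k M) [Algebra.FiniteType k A] {R : Type} [CommRing R]
    [Algebra k R] [Algebra.FiniteType k R] (φ : J → R) (r : R)
    (h1 : M (Fib k t (R ⧸ Ideal.span {r}) (fun j => algebraMap R _ (φ j))))
    (h2 : M (Fib k t (Localization.Away r) (fun j => algebraMap R _ (φ j)))) :
    M (Fib k t R φ) := by
  apply hM.glue _ (algebraMap R (Fib k t R φ) r) (fib_ft k t R φ)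
  · refine hM.iso _ _ ?_ h1
    refine ((fibBase k t R φ (R ⧸ Ideal.span {r})).restrictScalars k).symm.trans ?_
    refine ((Algebra.TensorProduct.comm R (R ⧸ Ideal.span {r}) (Fib k t R φ)).restrictScalars
      k).trans ?_
    have e := Algebra.TensorProduct.quotIdealMapEquivTensorQuot (Fib k t R φ) (Ideal.span {r})
    refine (AlgEquiv.restrictScalars k e).symm.trans ?_
    refine Ideal.quotientEquivAlgOfEq k ?_
    rw [Ideal.map_span, Set.image_singleton]
  · refine hM.iso _ _ ?_ h2
    refine ((fibBase k t R φ (Localization.Away r)).restrictScalars k).symm.trans ?_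
    refine ((Algebra.TensorProduct.comm R (Localization.Away r) (Fib k t R φ)).restrictScalars
      k).trans ?_
    exact (IsLocalization.Away.tensorEquiv (Fib k t R φ) (A := Localization.Away r)
      (r := r)).restrictScalars k

theorem fib_kummer (hM : TClass k M) [Algebra.FiniteType k A] {R : Type} [CommRing R]
    [Algebra k R] [Algebra.FiniteType k R] (φ : J → R) (r : R) (d : ℕ) (hr : IsUnit r)
    (hd : (d : k) ≠ 0)
    (h : M (Fib k t (Kum R r d) (fun j => algebraMap R (Kum R r d) (φ j)))) :
    M (Fib k t R φ) := by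
  apply hM.kummer _ (algebraMap R (Fib k t R φ) r) d (fib_ft k t R φ) (hr.map _) hd
  refine hM.iso _ _ ?_ h
  refine ((fibBase k t R φ (Kum R r d)).restrictScalars k).symm.trans ?_
  refine ((Algebra.TensorProduct.comm R (Kum R r d) (Fib k t R φ)).restrictScalars k).trans ?_
  refine ((AdjoinRoot.tensorAlgEquiv (R := R) (T := Fib k t R φ) _ _ rfl).restrictScalars
    k).trans ?_
  refine AdjoinRoot.mapAlgEquiv
    ((Algebra.TensorProduct.rid R R (Fib k t R φ)).restrictScalars k) _ _ ?_
  simp [Algebra.smul_def]

end

end Pool.Agent.Helper62.TS
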