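import Pool.Agent.Helper62.TS.Core
import Pool.Agent.Helper62.TS.Dim
import Pool.Agent.Helper65.Mor.Morin
import Pool.Agent.Helper65.Mor.Roots

/-!
# The class `MorinClass` and Kummer covers
-/

namespace Pool.Agent.Helper62.TS

open AlgebraicGeometry CategoryTheory TensorProduct Polynomial
open Pool.Agent.Helper65.Mor (FGen OnRings morinRings MorinRings powFn powFn_rep_zero
  powFn_rep_succ CurveProduct etale_adjoinRoot comap_adjoinRoot_surjective Fn.Mem.of_rep)

theorem fgen_of_ft {k A : Type} [Field k] [Finite k] [CommRing A] [Algebra k A]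
    (h : Algebra.FiniteType k A) : FGen A := by
  have h1 : FGen k := by
    have : Module.Finite ℤ k := Module.Finite.of_finite
    have h2 : Algebra.FiniteType ℤ k := inferInstance
    have h3 : Int.castRingHom k = algebraMap ℤ k := RingHom.ext_int _ _
    rw [FGen, h3]
    exact RingHom.finiteType_algebraMap.2 h2
  exact h1.of_hom (algebraMap k A) (RingHom.finiteType_algebraMap.2 h)

section

variable {k : Type} [Field k] {A : Type} [CommRing A] [Algebra k A] {a : A} {d : ℕ}

theorem root_pow (a : A) (d : ℕ) :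
    (AdjoinRoot.root (X ^ d - C a : A[X])) ^ d = algebraMap A (Kum A a d) a := by
  have := AdjoinRoot.eval₂_root (X ^ d - C a : A[X])
  rw [eval₂_sub, eval₂_C, eval₂_pow, eval₂_X, sub_eq_zero] at this
  exact this

theorem root_isUnit (ha : IsUnit a) (hd : d ≠ 0) :
    IsUnit (AdjoinRoot.root (X ^ d - C a : A[X])) := by
  have h2 : IsUnit (algebraMap A (Kum A a d) a) := ha.map _
  rw [← root_pow] at h2
  exact (isUnit_pow_iff hd).1 h2

/-- scaling the root by a unit -/
noncomputable def kumScale (S : Type) [CommRing S] (v : Sˣ) (a b : S) (d : ℕ)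
    (h : a = (v : S) ^ d * b) : Kum S a d ≃ₐ[S] Kum S b d :=
  AlgEquiv.ofAlgHom
    (AdjoinRoot.liftAlgHom _ (Algebra.ofId S _)
      (algebraMap S (Kum S b d) v * AdjoinRoot.root (X ^ d - C b : S[X])) (by
        rw [eval₂_sub, eval₂_C, eval₂_pow, eval₂_X, mul_pow, root_pow, h]
        simp))
    (AdjoinRoot.liftAlgHom _ (Algebra.ofId S _)
      (algebraMap S (Kum S a d) ((v⁻¹ : Sˣ) : S) * AdjoinRoot.root (X ^ d - C a : S[X])) (by
        rw [eval₂_sub, eval₂_C, eval₂_pow, eval₂_X, mul_pow, root_pow, h, ← map_pow, ← map_mul,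
          ← mul_assoc, ← mul_pow, Units.inv_mul, one_pow, one_mul]
        exact sub_self _))
    (by
      apply AdjoinRoot.algHom_ext
      simp only [AlgHom.comp_apply, AdjoinRoot.liftAlgHom_root, map_mul, AlgHom.commutes,
        AlgHom.id_apply]
      rw [← mul_assoc, ← map_mul, Units.inv_mul, map_one, one_mul])
    (by
      apply AdjoinRoot.algHom_ext
      simp only [AlgHom.comp_apply, AdjoinRoot.liftAlgHom_root, map_mul, AlgHom.commutes,
        AlgHom.id_apply]
      rw [← mul_assoc, ← map_mul, Units.mul_inv, map_one, one_mul])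

/-- the fibre square of a Kummer cover -/
theorem kum_square (ha : IsUnit a) (hd : d ≠ 0) :
    Nonempty ((Kum A a d ⊗[A] Kum A a d) ≃ₐ[A] (Kum A a d ⊗[k] Kum k 1 d)) := by
  let S := Kum A a d
  let e1 : (S ⊗[A] Kum A a d) ≃ₐ[S] Kum (S ⊗[A] A) ((1 : S) ⊗ₜ a) d :=
    AdjoinRoot.tensorAlgEquiv _ _ (by simp)
  obtain ⟨v, hv⟩ := root_isUnit ha hd
  let e2 : Kum (S ⊗[A] A) ((1 : S) ⊗ₜ a) d ≃ₐ[S] Kum S (algebraMap A S a) d :=
    AdjoinRoot.mapAlgEquiv (Algebra.TensorProduct.rid A S S) _ _ (by simp [Algebra.smul_def])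
  let e3 : Kum S (algebraMap A S a) d ≃ₐ[S] Kum S 1 d :=
    kumScale S v _ _ d (by rw [mul_one, hv, root_pow])
  let e4 : (S ⊗[k] Kum k 1 d) ≃ₐ[S] Kum (S ⊗[k] k) 1 d :=
    AdjoinRoot.tensorAlgEquiv _ _ (by simp)
  let e5 : Kum (S ⊗[k] k) 1 d ≃ₐ[S] Kum S 1 d :=
    AdjoinRoot.mapAlgEquiv (Algebra.TensorProduct.rid k S S) _ _ (by simp)
  exact ⟨((e1.trans e2).trans (e3.trans (e4.trans e5).symm)).restrictScalars A⟩

theorem kum_etale (ha : IsUnit a) (hd : (d : k) ≠ 0) : Algebra.Etale A (Kum A a d) := by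
  have hd0 : d ≠ 0 := by rintro rfl; exact hd (by simp)
  apply etale_adjoinRoot (monic_X_pow_sub_C _ hd0)
  obtain ⟨u, rfl⟩ := ha
  refine ⟨-C ((u⁻¹ : Aˣ) : A), C (((u⁻¹ : Aˣ) : A) * algebraMap k A ((d : k)⁻¹)) * X, ?_⟩
  have h1 : (C (((u⁻¹ : Aˣ) : A) * algebraMap k A ((d : k)⁻¹)) * X : A[X]) *
      derivative (X ^ d - C (u : A)) = C ((u⁻¹ : Aˣ) : A) * X ^ d := by
    rw [derivative_sub, derivative_C, sub_zero, derivative_X_pow]
    have h2 : (X : A[X]) ^ d = X * X ^ (d - 1) := by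
      rw [← pow_succ', Nat.sub_add_cancel (Nat.one_le_iff_ne_zero.2 hd0)]
    have h3 : algebraMap k A ((d : k)⁻¹) * (d : A) = 1 := by
      rw [← map_natCast (algebraMap k A) d, ← map_mul, inv_mul_cancel₀ hd, map_one]
    calc (C (((u⁻¹ : Aˣ) : A) * algebraMap k A ((d : k)⁻¹)) * X : A[X]) *
          (C (d : A) * X ^ (d - 1)) =
          C (((u⁻¹ : Aˣ) : A) * (algebraMap k A ((d : k)⁻¹) * (d : A))) * (X * X ^ (d - 1)) := by
          simp only [C_mul]; ring
      _ = C ((u⁻¹ : Aˣ) : A) * X ^ d := by rw [h3, mul_one, h2]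
  rw [h1, neg_mul, mul_sub, ← C_mul, Units.inv_mul, C_1]
  ring

theorem kum_surjective (hd : d ≠ 0) (h : Nontrivial A) :
    Function.Surjective (PrimeSpectrum.comap (algebraMap A (Kum A a d))) :=
  comap_adjoinRoot_surjective (monic_X_pow_sub_C _ hd) (by rwa [natDegree_X_pow_sub_C])

theorem kum_ft (hA : Algebra.FiniteType k A) : Algebra.FiniteType k (Kum A a d) :=
  Algebra.FiniteType.trans (S := A) hA inferInstance

theorem curveProduct_finite {K : Type} [CommRing K] [Algebra k K] (h1 : Algebra.FiniteType k K)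
    (h2 : ringKrullDim K ≤ 1) : CurveProduct k K :=
  .iso _ _ (.tensor k K .base h1 h2) (Algebra.TensorProduct.lid k K)

theorem curveProduct_mu (d : ℕ) (hd : d ≠ 0) : CurveProduct k (Kum k 1 d) := by
  have hf : Module.Finite k (Kum k 1 d) := (monic_X_pow_sub_C (1 : k) hd).finite_adjoinRoot
  apply curveProduct_finite inferInstance
  have h1 : ringKrullDim (Kum k 1 d) ≤ ringKrullDim k := dim_integral_le (R := k)
  rw [ringKrullDim_eq_zero_of_field] at h1
  exact h1.trans (by norm_num)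

/-- the fibre powers of a Kummer cover -/
theorem kum_powers (ha : IsUnit a) (hd : d ≠ 0) (n : ℕ) :
    ∃ (T : Type) (_ : CommRing T) (_ : Algebra A T)
      (t : (powFn (algebraMap A (Kum A a d)) n).obj T)
      (E : Type) (_ : CommRing E) (_ : Algebra k E),
      (powFn (algebraMap A (Kum A a d)) n).Rep T t ∧ t.1.1 = algebraMap A T ∧
      CurveProduct k E ∧ Nonempty (T ≃ₐ[A] (Kum A a d ⊗[k] E)) := by
  induction n with
  | zero =>
    refine ⟨Kum A a d, inferInstance, inferInstance, _, k, inferInstance, inferInstance,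
      powFn_rep_zero _, rfl, .base, ⟨(Algebra.TensorProduct.rid k A (Kum A a d)).symm⟩⟩
  | succ n ih =>
    obtain ⟨T, _, _, t, E, _, _, ht, h1, hE, ⟨e⟩⟩ := ih
    obtain ⟨t', ht', h1'⟩ := powFn_rep_succ n t ht h1
    obtain ⟨q⟩ := kum_square (k := k) (a := a) ha hd
    refine ⟨T ⊗[A] Kum A a d, inferInstance, inferInstance, t', Kum k 1 d ⊗[k] E, inferInstance,
      inferInstance, ht', h1', curveProduct_tensor (curveProduct_mu d hd) hE, ⟨?_⟩⟩
    exact ((Algebra.TensorProduct.congr e (AlgEquiv.refl (R := A) (A₁ := Kum A a d))).trans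
      (Algebra.TensorProduct.comm A _ _)).trans
      (((Algebra.TensorProduct.assoc k A A (Kum A a d) (Kum A a d) E).symm.trans
        (Algebra.TensorProduct.congr q (AlgEquiv.refl (R := k) (A₁ := E)))).trans
        (Algebra.TensorProduct.assoc k k A (Kum A a d) (Kum k 1 d) E))

end

/-- finitely generated rings whose spectrum is in `MorinClass` -/
def MorQ (A : Type) [CommRing A] : Prop := FGen A ∧ OnRings A

theorem rclass (k : Type) [Field k] [Finite k] : RClass k MorQ where
  iso A B _ _ e h := by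
    have h1 : FGen B := h.1.of_surjective (e : A →+* B) e.surjective
    exact ⟨h1, morinRings.iso A B h.1 e h.2⟩
  glue A _ _ a hA h1 h2 := by
    have h3 := fgen_of_ft hA
    exact ⟨h3, morinRings.glue A a h3 h1.2 h2.2⟩
  opn A _ _ a hA h1 h2 := by
    have h3 := fgen_of_ft hA
    exact ⟨h3.away a, morinRings.opn A a h3 h2.2 h1.2⟩
  kummer A _ _ a d hA ha hd h := by
    have h3 := fgen_of_ft hA
    refine ⟨h3, ?_⟩
    have hd0 : d ≠ 0 := by rintro rfl; exact hd (by simp)
    rcases subsingleton_or_nontrivial A with hs | hs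
    · exact morinRings.zero A hs
    refine morinRings.etale A (Kum A a d) h3 (kum_etale ha hd) (kum_surjective hd0 hs) ?_
    intro n
    obtain ⟨T, _, _, t, E, _, _, ht, h1, hE, ⟨e⟩⟩ := kum_powers (k := k) ha hd0 n
    have h4 := h E hE
    have h5 : (E ⊗[k] Kum A a d) ≃+* T :=
      ((Algebra.TensorProduct.comm k E (Kum A a d)).toRingEquiv).trans e.symm.toRingEquiv
    have h6 : FGen T := h4.1.of_surjective (h5 : (E ⊗[k] Kum A a d) →+* T) h5.surjective
    exact Fn.Mem.of_rep morinRings.toLocClass h6 ht (morinRings.iso _ _ h4.1 h5 h4.2)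
  curves A _ _ h := ⟨fgen_of_ft (curveProduct_ft h), morinRings.curves k A h⟩

end Pool.Agent.Helper62.TS
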