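import Pool.Agent.Helper62.TS.Trees
import Pool.Agent.Helper62.TS.MorClass

/-!
# From algebras to schemes
-/

namespace Pool.Agent.Helper62.TS

open AlgebraicGeometry CategoryTheory TensorProduct MvPolynomial
open Pool.Agent.Helper65.Mor (MorinClass)

theorem final_fib {k : Type} [Field k] [Finite k]
    {J : Type} [Finite J] {ι : J → Type} {f : ∀ j, MvPolynomial (ι j) k} {m : J → ℤ}
    (hf : ∀ j, ReadOnce k (ι j) (f j) (m j)) (R : Type) [CommRing R] [Algebra k R]
    (hR : Algebra.FiniteType k R) (hR1 : ringKrullDim R ≤ 1) (φ : J → R) :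
    MorinClass (Spec (CommRingCat.of (MvPolynomial (Σ j, ι j) R ⧸ Ideal.span (Set.range fun j =>
      rename (Sigma.mk j) (map (algebraMap k R) (f j)) - C (φ j))))) := by
  have hM := MM.tclass (rclass k)
  have h1 := Inner.fib hM (fun j => inner_of_readOnce hM (hf j)) R hR hR1 φ
  have h2 := hM.iso _ _ (polyIso _ R φ) h1
  have h3 : (fun j => map (algebraMap k R) (rename (Sigma.mk j) (f j)) - C (φ j)) =
      fun j => (rename (Sigma.mk j) (map (algebraMap k R) (f j)) - C (φ j) :
        MvPolynomial (Σ j, ι j) R) := by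
    funext j
    rw [map_rename]
  rw [h3] at h2
  exact (MM.mem (rclass k) h2).2

theorem final_surface {k : Type} [Field k] [Finite k]
    {ι : Fin 2 → Type} {f : ∀ j, MvPolynomial (ι j) k} {m : Fin 2 → ℤ}
    (hf : ∀ j, ReadOnce k (ι j) (f j) (m j)) {h : MvPolynomial (Fin 2) k} (hh : h ≠ 0) :
    MorinClass (Spec (CommRingCat.of (MvPolynomial (Σ j, ι j) k ⧸
      Ideal.span {aeval (fun j => rename (Sigma.mk j) (f j)) h}))) := by
  have hM := MM.tclass (rclass k)
  exact (MM.mem (rclass k)
    (Inner.surface hM (fun j => inner_of_readOnce hM (hf j)) hh)).2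

end Pool.Agent.Helper62.TS
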