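import Pool.Agent.Helper62.TS.Fibre

/-!
# The main step: fibre products over curves
-/

namespace Pool.Agent.Helper62.TS

open TensorProduct Polynomial

section

variable {k : Type} [Field k] {J : Type} {A : Type} [CommRing A] [Algebra k A]

/-- The torus with one factor for each `j : J` acts on `Spec A`, and the function `t j` is
homogeneous of weight `m j` for the `j`-th factor and invariant under the other factors. -/
def TorusAct (k : Type) [Field k] [Algebra k A] (t : J → A) (m : J → ℤ) : Prop :=
  ∀ (W : Type) [CommRing W] [Algebra k W] (u : J → Wˣ),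
    ∃ θ : (W ⊗[k] A) ≃ₐ[W] (W ⊗[k] A), ∀ j,
      θ ((1 : W) ⊗ₜ[k] t j) = ((u j ^ m j : Wˣ) : W) ⊗ₜ[k] t j

variable {t : J → A} {m : J → ℤ}

theorem fib_twist (hact : TorusAct k t m) {R : Type} [CommRing R] [Algebra k R] (φ : J → R)
    (ε : J → k) (u : J → Rˣ) (h : ∀ j, φ j = ((u j ^ m j : Rˣ) : R) * algebraMap k R (ε j)) :
    Nonempty ((R ⊗[k] (A ⧸ Ideal.span (Set.range fun j => t j - algebraMap k A (ε j)))) ≃ₐ[k]
      Fib k t R φ) := by
  obtain ⟨θ, hθ⟩ := hact R u
  refine ⟨(Algebra.TensorProduct.tensorQuotientEquiv (R := k) k A R _).trans ?_⟩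
  refine (Ideal.quotientEquivAlg _ _ (θ.restrictScalars k) ?_).symm
  rw [relIdeal, Ideal.map_span, Ideal.map_span, ← Set.range_comp, ← Set.range_comp]
  have key : ∀ j, θ ((1 : R) ⊗ₜ[k] t j - φ j ⊗ₜ[k] (1 : A)) =
      ((u j ^ m j : Rˣ) : R) ⊗ₜ[k] (1 : A) *
        (1 : R) ⊗ₜ[k] (t j - algebraMap k A (ε j)) := by
    intro j
    have h1 : θ (φ j ⊗ₜ[k] (1 : A)) = φ j ⊗ₜ[k] (1 : A) := θ.commutes (φ j)
    rw [map_sub, hθ, h1, Algebra.TensorProduct.tmul_mul_tmul, mul_one, one_mul, tmul_sub, h j]
    congr 1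
    rw [Algebra.algebraMap_eq_smul_one, Algebra.algebraMap_eq_smul_one, mul_smul_comm, mul_one,
      TensorProduct.smul_tmul]
  have key2 : ∀ j, IsUnit (((u j ^ m j : Rˣ) : R) ⊗ₜ[k] (1 : A)) := fun j =>
    (Units.isUnit (u j ^ m j)).map (algebraMap R (R ⊗[k] A))
  apply le_antisymm
  · rw [Ideal.span_le]
    rintro _ ⟨j, rfl⟩
    have h2 : (1 : R) ⊗ₜ[k] (t j - algebraMap k A (ε j)) =
        (key2 j).unit⁻¹ * θ ((1 : R) ⊗ₜ[k] t j - φ j ⊗ₜ[k] (1 : A)) := by
      rw [key, ← mul_assoc, IsUnit.val_inv_mul, one_mul]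
    change (1 : R) ⊗ₜ[k] (t j - algebraMap k A (ε j)) ∈ _
    rw [h2]
    exact Ideal.mul_mem_left _ _ (Ideal.subset_span ⟨j, rfl⟩)
  · rw [Ideal.span_le]
    rintro _ ⟨j, rfl⟩
    change θ ((1 : R) ⊗ₜ[k] t j - φ j ⊗ₜ[k] (1 : A)) ∈ _
    rw [key]
    exact Ideal.mul_mem_left _ _ (Ideal.subset_span ⟨j, rfl⟩)

theorem fib_subsingleton {M : ∀ (A : Type) [CommRing A] [Algebra k A], Prop} (hM : TClass k M)
    [Algebra.FiniteType k A] {R : Type} [CommRing R] [Algebra k R] [Algebra.FiniteType k R]
    [Subsingleton R] (φ : J → R) : M (Fib k t R φ) := by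
  have h1 : Subsingleton (Fib k t R φ) := by
    apply subsingleton_of_zero_eq_one
    have : (0 : R) = 1 := Subsingleton.elim _ _
    simpa using congrArg (algebraMap R (Fib k t R φ)) this
  apply hM.curve _ (fib_ft k t R φ)
  rw [ringKrullDim_eq_bot_of_subsingleton]
  exact bot_le

theorem fib_mem {M : ∀ (A : Type) [CommRing A] [Algebra k A], Prop} (hM : TClass k M)
    [Algebra.FiniteType k A] [Finite J] (hact : TorusAct k t m) (hm : ∀ j, ((m j : ℤ) : k) ≠ 0)
    (hε : ∀ ε : J → k, (∀ j, ε j = 0 ∨ ε j = 1) →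
      M (A ⧸ Ideal.span (Set.range fun j => t j - algebraMap k A (ε j))))
    (R : Type) [CommRing R] [Algebra k R] (hR : Algebra.FiniteType k R)
    (hR1 : ringKrullDim R ≤ 1) (φ : J → R) : M (Fib k t R φ) := by
  classical
  have := Fintype.ofFinite J
  suffices H : ∀ (s : Finset J) (R : Type) [CommRing R] [Algebra k R],
      Algebra.FiniteType k R → ringKrullDim R ≤ 1 → ∀ φ : J → R,
      (∀ j ∉ s, φ j = 0 ∨ ∃ u : Rˣ, φ j = ((u ^ m j : Rˣ) : R)) → M (Fib k t R φ) by
    exact H Finset.univ R hR hR1 φ (fun j hj => absurd (Finset.mem_univ j) hj)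
  intro s
  induction s using Finset.induction_on with
  | empty =>
    intro R _ _ hR hR1 φ hφ
    have h1 : ∀ j, ∃ (u : Rˣ) (e : k), (e = 0 ∨ e = 1) ∧
        φ j = ((u ^ m j : Rˣ) : R) * algebraMap k R e := by
      intro j
      rcases hφ j (by simp) with h | ⟨u, h⟩
      · exact ⟨1, 0, Or.inl rfl, by simp [h]⟩
      · exact ⟨u, 1, Or.inr rfl, by simp [h]⟩
    choose u ε he hφ2 using h1
    obtain ⟨e⟩ := fib_twist hact φ ε u hφ2
    exact hM.iso _ _ e (hM.tensor _ _ (hM.curve R hR hR1) (hε ε he))
  | insert a s ha ih =>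
    intro R _ _ hR hR1 φ hφ
    apply fib_glue hM φ (φ a)
    · apply ih
      · infer_instance
      · exact (ringKrullDim_quotient_le _).trans hR1
      · intro j hj
        by_cases hja : j = a
        · left
          subst hja
          exact Ideal.Quotient.eq_zero_iff_mem.2 (Ideal.mem_span_singleton_self _)
        · rcases hφ j (by simp [hja, hj]) with h | ⟨u, h⟩
          · left
            rw [h, map_zero]
          · right
            refine ⟨Units.map (algebraMap R (R ⧸ Ideal.span {φ a})).toMonoidHom u, ?_⟩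
            rw [h, ← map_zpow]
            rfl
    · have hR2 : Algebra.FiniteType k (Localization.Away (φ a)) :=
        Algebra.FiniteType.trans (S := R) hR inferInstance
      have hR3 : ringKrullDim (Localization.Away (φ a)) ≤ 1 := (dim_away_le _).trans hR1
      rcases subsingleton_or_nontrivial (Localization.Away (φ a)) with hs | hs
      · exact fib_subsingleton hM _
      set R1 := Localization.Away (φ a) with hR1def
      have hma : m a ≠ 0 := fun h => hm a (by rw [h, Int.cast_zero])
      obtain ⟨n, hn⟩ : ∃ n, (m a).natAbs = n + 1 :=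
        ⟨(m a).natAbs - 1, by have := Int.natAbs_pos.2 hma; omega⟩
      have hnk : ((n + 1 : ℕ) : k) ≠ 0 := by
        intro h0
        apply hm a
        rcases Int.natAbs_eq (m a) with h | h
        · rw [h, hn, Int.cast_natCast, h0]
        · rw [h, hn, Int.cast_neg, Int.cast_natCast, h0, neg_zero]
      set g : R1[X] := X ^ (n + 1) - C (algebraMap R R1 (φ a)) with hg
      have hmonic : g.Monic := monic_X_pow_sub_C _ (by omega)
      have hfin : Module.Finite R1 (AdjoinRoot g) := hmonic.finite_adjoinRoot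
      have hft : Algebra.FiniteType k (AdjoinRoot g) :=
        Algebra.FiniteType.trans (S := R1) hR2 inferInstance
      refine fib_kummer hM _ (algebraMap R R1 (φ a)) (n + 1)
        (IsLocalization.Away.algebraMap_isUnit (φ a)) hnk ?_
      apply ih
      · exact hft
      · exact (dim_integral_le (R := R1)).trans hR3
      · intro j hj
        by_cases hja : j = a
        · right
          subst hja
          have h1 : (AdjoinRoot.root g) ^ (n + 1) =
              algebraMap R1 (AdjoinRoot g) (algebraMap R R1 (φ j)) := by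
            have := AdjoinRoot.eval₂_root g
            rw [hg, eval₂_sub, eval₂_C, eval₂_pow, eval₂_X, sub_eq_zero] at this
            exact this
          have h2 : IsUnit (algebraMap R1 (AdjoinRoot g) (algebraMap R R1 (φ j))) :=
            (IsLocalization.Away.algebraMap_isUnit (φ j)).map _
          have h3 : IsUnit (AdjoinRoot.root g) := by
            rw [← h1] at h2
            exact (isUnit_pow_iff (by omega)).1 h2
          obtain ⟨v, hv⟩ := h3
          rcases Int.natAbs_eq (m j) with h | h
          · have h4 : m j = ((n + 1 : ℕ) : ℤ) := by omega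
            exact ⟨v, by rw [h4, zpow_natCast, Units.val_pow_eq_pow_val, hv, h1]⟩
          · have h4 : m j = -((n + 1 : ℕ) : ℤ) := by omega
            exact ⟨v⁻¹, by
              rw [h4, inv_zpow, zpow_neg, inv_inv, zpow_natCast, Units.val_pow_eq_pow_val, hv, h1]⟩
        · rcases hφ j (by simp [hja, hj]) with h | ⟨u, h⟩
          · left
            rw [h, map_zero, map_zero]
          · right
            refine ⟨Units.map (algebraMap R1 (AdjoinRoot g)).toMonoidHom
              (Units.map (algebraMap R R1).toMonoidHom u), ?_⟩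
            rw [h, ← map_zpow, ← map_zpow]
            rfl

end

end Pool.Agent.Helper62.TS
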