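import Pool.Agent.Helper62.TS.Weights

/-!
# Products of hypersurfaces in disjoint sets of variables
-/

namespace Pool.Agent.Helper62.TS

open TensorProduct MvPolynomial

section

variable {k : Type} [Field k]

/-- the product of two closed subschemes of affine spaces -/
noncomputable def prodIso {σ τ : Type} (F : Set (MvPolynomial σ k)) (G : Set (MvPolynomial τ k)) :
    ((MvPolynomial σ k ⧸ Ideal.span F) ⊗[k] (MvPolynomial τ k ⧸ Ideal.span G)) ≃ₐ[k]
      (MvPolynomial (σ ⊕ τ) k ⧸ Ideal.span (rename Sum.inl '' F ∪ rename Sum.inr '' G)) :=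
  let I := Ideal.span (rename (R := k) (Sum.inl : σ → σ ⊕ τ) '' F ∪ rename Sum.inr '' G)
  let φ₁ : (MvPolynomial σ k ⧸ Ideal.span F) →ₐ[k] (MvPolynomial (σ ⊕ τ) k ⧸ I) :=
    Ideal.Quotient.liftₐ _ ((Ideal.Quotient.mkₐ k I).comp (rename Sum.inl)) (by
      intro a ha
      have : Ideal.span F ≤ RingHom.ker ((Ideal.Quotient.mkₐ k I).comp (rename Sum.inl)) := by
        rw [Ideal.span_le]
        intro f hf
        exact Ideal.Quotient.eq_zero_iff_mem.2 (Ideal.subset_span (Or.inl ⟨f, hf, rfl⟩))
      exact this ha)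
  let φ₂ : (MvPolynomial τ k ⧸ Ideal.span G) →ₐ[k] (MvPolynomial (σ ⊕ τ) k ⧸ I) :=
    Ideal.Quotient.liftₐ _ ((Ideal.Quotient.mkₐ k I).comp (rename Sum.inr)) (by
      intro a ha
      have : Ideal.span G ≤ RingHom.ker ((Ideal.Quotient.mkₐ k I).comp (rename Sum.inr)) := by
        rw [Ideal.span_le]
        intro f hf
        exact Ideal.Quotient.eq_zero_iff_mem.2 (Ideal.subset_span (Or.inr ⟨f, hf, rfl⟩))
      exact this ha)
  let ψ₀ : MvPolynomial (σ ⊕ τ) k →ₐ[k]
      ((MvPolynomial σ k ⧸ Ideal.span F) ⊗[k] (MvPolynomial τ k ⧸ Ideal.span G)) :=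
    aeval (Sum.elim
      (fun i => (Ideal.Quotient.mkₐ k (Ideal.span F) (X i)) ⊗ₜ[k]
        (1 : MvPolynomial τ k ⧸ Ideal.span G))
      (fun i => (1 : MvPolynomial σ k ⧸ Ideal.span F) ⊗ₜ[k]
        (Ideal.Quotient.mkₐ k (Ideal.span G) (X i))))
  have h1 : ψ₀.comp (rename Sum.inl) =
      Algebra.TensorProduct.includeLeft.comp (Ideal.Quotient.mkₐ k _) := by
    apply MvPolynomial.algHom_ext
    intro i
    simp [ψ₀]
  have h2 : ψ₀.comp (rename Sum.inr) =
      Algebra.TensorProduct.includeRight.comp (Ideal.Quotient.mkₐ k _) := by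
    apply MvPolynomial.algHom_ext
    intro i
    simp [ψ₀]
  let ψ : (MvPolynomial (σ ⊕ τ) k ⧸ I) →ₐ[k]
      ((MvPolynomial σ k ⧸ Ideal.span F) ⊗[k] (MvPolynomial τ k ⧸ Ideal.span G)) :=
    Ideal.Quotient.liftₐ _ ψ₀ (by
      intro a ha
      have : I ≤ RingHom.ker ψ₀ := by
        rw [Ideal.span_le]
        rintro _ (⟨f, hf, rfl⟩ | ⟨f, hf, rfl⟩)
        · have h3 := DFunLike.congr_fun h1 f
          simp only [AlgHom.comp_apply] at h3
          change ψ₀ _ = 0
          rw [h3]
          have h4 : Ideal.Quotient.mkₐ k (Ideal.span F) f = 0 :=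
            Ideal.Quotient.eq_zero_iff_mem.2 (Ideal.subset_span hf)
          rw [h4, map_zero]
        · have h3 := DFunLike.congr_fun h2 f
          simp only [AlgHom.comp_apply] at h3
          change ψ₀ _ = 0
          rw [h3]
          have h4 : Ideal.Quotient.mkₐ k (Ideal.span G) f = 0 :=
            Ideal.Quotient.eq_zero_iff_mem.2 (Ideal.subset_span hf)
          rw [h4, map_zero]
      exact this ha)
  have hφ₁ : ∀ a, φ₁ (Ideal.Quotient.mkₐ k (Ideal.span F) a) =
      Ideal.Quotient.mkₐ k I (rename Sum.inl a) := fun a => rfl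
  have hφ₂ : ∀ a, φ₂ (Ideal.Quotient.mkₐ k (Ideal.span G) a) =
      Ideal.Quotient.mkₐ k I (rename Sum.inr a) := fun a => rfl
  have hψ : ∀ a, ψ (Ideal.Quotient.mkₐ k I a) = ψ₀ a := fun a => rfl
  AlgEquiv.ofAlgHom (Algebra.TensorProduct.lift φ₁ φ₂ fun _ _ => .all _ _) ψ
    (by
      apply Ideal.Quotient.algHom_ext
      apply MvPolynomial.algHom_ext
      rintro (i | i)
      · change (Algebra.TensorProduct.lift φ₁ φ₂ fun _ _ => .all _ _)
          (ψ (Ideal.Quotient.mkₐ k I (X (Sum.inl i)))) = Ideal.Quotient.mkₐ k I (X (Sum.inl i))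
        rw [hψ, aeval_X, Sum.elim_inl, Algebra.TensorProduct.lift_tmul, map_one, mul_one, hφ₁,
          rename_X]
      · change (Algebra.TensorProduct.lift φ₁ φ₂ fun _ _ => .all _ _)
          (ψ (Ideal.Quotient.mkₐ k I (X (Sum.inr i)))) = Ideal.Quotient.mkₐ k I (X (Sum.inr i))
        rw [hψ, aeval_X, Sum.elim_inr, Algebra.TensorProduct.lift_tmul, map_one, one_mul, hφ₂,
          rename_X])
    (by
      apply Algebra.TensorProduct.ext
      · apply Ideal.Quotient.algHom_ext
        apply MvPolynomial.algHom_ext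
        intro i
        change ψ ((Algebra.TensorProduct.lift φ₁ φ₂ fun _ _ => .all _ _)
          (Ideal.Quotient.mkₐ k (Ideal.span F) (X i) ⊗ₜ[k] 1)) =
            Ideal.Quotient.mkₐ k (Ideal.span F) (X i) ⊗ₜ[k] 1
        rw [Algebra.TensorProduct.lift_tmul, map_one, mul_one, hφ₁, rename_X, hψ, aeval_X,
          Sum.elim_inl]
      · apply Ideal.Quotient.algHom_ext
        apply MvPolynomial.algHom_ext
        intro i
        change ψ ((Algebra.TensorProduct.lift φ₁ φ₂ fun _ _ => .all _ _)
          (1 ⊗ₜ[k] Ideal.Quotient.mkₐ k (Ideal.span G) (X i))) =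
            1 ⊗ₜ[k] Ideal.Quotient.mkₐ k (Ideal.span G) (X i)
        rw [Algebra.TensorProduct.lift_tmul, map_one, one_mul, hφ₂, rename_X, hψ, aeval_X,
          Sum.elim_inr])

/-- renaming the variables -/
noncomputable def renameIso {σ τ : Type} (e : σ ≃ τ) (F : Set (MvPolynomial σ k))
    (G : Set (MvPolynomial τ k)) (h : G = rename e '' F) :
    (MvPolynomial σ k ⧸ Ideal.span F) ≃ₐ[k] (MvPolynomial τ k ⧸ Ideal.span G) :=
  Ideal.quotientEquivAlg _ _ (renameEquiv k e) (by
    rw [h, Ideal.map_span]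
    rfl)

/-- splitting off one block of variables -/
def optionEquiv {α : Type} (ι : Option α → Type) :
    (ι none ⊕ Σ a, ι (some a)) ≃ Σ j, ι j where
  toFun := Sum.elim (fun i => ⟨none, i⟩) (fun p => ⟨some p.1, p.2⟩)
  invFun := fun p => match p with
    | ⟨none, i⟩ => Sum.inl i
    | ⟨some a, i⟩ => Sum.inr ⟨a, i⟩
  left_inv := by rintro (i | ⟨a, i⟩) <;> rfl
  right_inv := by rintro ⟨_ | a, i⟩ <;> rfl

theorem prod_mem {M : ∀ (A : Type) [CommRing A] [Algebra k A], Prop} (hM : TClass k M)
    (J : Type) [Finite J] : ∀ (ι : J → Type) (g : ∀ j, MvPolynomial (ι j) k),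
    (∀ j, M (MvPolynomial (ι j) k ⧸ Ideal.span {g j})) →
      M (MvPolynomial (Σ j, ι j) k ⧸
        Ideal.span (Set.range fun j => rename (Sigma.mk j) (g j))) := by
  induction J using Finite.induction_empty_option with
  | of_equiv e ih =>
    intro ι g h
    refine hM.iso _ _ (renameIso (Equiv.sigmaCongrLeft e) _ _ ?_)
      (ih (fun a => ι (e a)) (fun a => g (e a)) (fun a => h (e a)))
    rw [← Set.range_comp]
    have h1 : (rename (Equiv.sigmaCongrLeft e) ∘ fun a => rename (Sigma.mk a) (g (e a))) =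
        (fun j => rename (R := k) (Sigma.mk j) (g j)) ∘ e := by
      funext a
      simp only [Function.comp_apply]
      rw [rename_rename]
      rfl
    rw [h1, e.surjective.range_comp]
  | h_empty =>
    intro ι g h
    apply hM.curve
    · infer_instance
    · refine (ringKrullDim_quotient_le _).trans ?_
      rw [ringKrullDim_mvPolynomial_of_isEmpty, ringKrullDim_eq_zero_of_field]
      exact zero_le_one
  | h_option ih =>
    intro ι g h
    have h1 := ih (fun a => ι (some a)) (fun a => g (some a)) (fun a => h (some a))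
    have h2 := hM.iso _ _ (prodIso _ _) (hM.tensor _ _ (h none) h1)
    refine hM.iso _ _ (renameIso (optionEquiv ι) _ _ ?_) h2
    rw [Set.image_union, Set.image_image, Set.image_image, Set.image_singleton, ← Set.range_comp,
      rename_rename]
    ext f
    constructor
    · rintro ⟨_ | a, rfl⟩
      · left
        rfl
      · right
        refine ⟨a, ?_⟩
        simp only [Function.comp_apply]
        rw [rename_rename, rename_rename]
        rfl
    · rintro (hf | ⟨a, rfl⟩)
      · refine ⟨none, ?_⟩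
        rw [Set.mem_singleton_iff] at hf
        rw [hf]
        rfl
      · refine ⟨some a, ?_⟩
        simp only [Function.comp_apply]
        rw [rename_rename, rename_rename]
        rfl

end

end Pool.Agent.Helper62.TS
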