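import Pool.Agent.Helper62.TS.Products
import Pool.Agent.Helper62.TS.Defs

/-!
# Read-once hypersurfaces
-/

namespace Pool.Agent.Helper62.TS

open TensorProduct MvPolynomial

section

variable {k : Type} [Field k]

/-- fibre products over plane curves are quotients -/
noncomputable def pullIso {J A : Type} [CommRing A] [Algebra k A] (t : J → A)
    (I : Ideal (MvPolynomial J k)) :
    Fib k t (MvPolynomial J k ⧸ I) (fun j => Ideal.Quotient.mkₐ k I (X j)) ≃ₐ[k]
      (A ⧸ I.map (aeval t : MvPolynomial J k →ₐ[k] A)) :=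
  let I' := I.map (aeval t : MvPolynomial J k →ₐ[k] A)
  let F := relIdeal k t (MvPolynomial J k ⧸ I) (fun j => Ideal.Quotient.mkₐ k I (X j))
  let α : (MvPolynomial J k ⧸ I) →ₐ[k] (A ⧸ I') :=
    Ideal.Quotient.liftₐ I ((Ideal.Quotient.mkₐ k I').comp (aeval t)) (fun a ha =>
      Ideal.Quotient.eq_zero_iff_mem.2 (Ideal.mem_map_of_mem _ ha))
  have hα : ∀ a, α (Ideal.Quotient.mkₐ k I a) = Ideal.Quotient.mkₐ k I' (aeval t a) :=
    fun a => rfl
  let β₀ : ((MvPolynomial J k ⧸ I) ⊗[k] A) →ₐ[k] (A ⧸ I') :=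
    Algebra.TensorProduct.lift α (Ideal.Quotient.mkₐ k I') fun _ _ => .all _ _
  let β : (((MvPolynomial J k ⧸ I) ⊗[k] A) ⧸ F) →ₐ[k] (A ⧸ I') :=
    Ideal.Quotient.liftₐ F β₀ (by
      intro a ha
      have : F ≤ RingHom.ker β₀ := by
        change Ideal.span _ ≤ _
        rw [Ideal.span_le]
        rintro _ ⟨j, rfl⟩
        change β₀ _ = 0
        rw [map_sub, Algebra.TensorProduct.lift_tmul, Algebra.TensorProduct.lift_tmul, map_one,
          map_one, one_mul, mul_one, hα, aeval_X, sub_self]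
      exact this ha)
  have hβ : ∀ a, β (Ideal.Quotient.mkₐ k F a) = β₀ a := fun a => rfl
  let γ₀ : A →ₐ[k] (((MvPolynomial J k ⧸ I) ⊗[k] A) ⧸ F) :=
    (Ideal.Quotient.mkₐ k F).comp Algebra.TensorProduct.includeRight
  have hγ₀ : γ₀.comp (aeval t) = ((Ideal.Quotient.mkₐ k F).comp
      Algebra.TensorProduct.includeLeft).comp (Ideal.Quotient.mkₐ k I) := by
    apply MvPolynomial.algHom_ext
    intro j
    change Ideal.Quotient.mkₐ k F (1 ⊗ₜ (aeval t (X j))) =
      Ideal.Quotient.mkₐ k F ((Ideal.Quotient.mkₐ k I (X j)) ⊗ₜ 1)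
    rw [aeval_X]
    exact Ideal.Quotient.eq.2 (Ideal.subset_span ⟨j, rfl⟩)
  let γ : (A ⧸ I') →ₐ[k] (((MvPolynomial J k ⧸ I) ⊗[k] A) ⧸ F) :=
    Ideal.Quotient.liftₐ I' γ₀ (by
      intro a ha
      have : I' ≤ RingHom.ker γ₀ := by
        rw [Ideal.map_le_iff_le_comap]
        intro p hp
        have h1 := DFunLike.congr_fun hγ₀ p
        change γ₀ (aeval t p) = 0
        change γ₀ (aeval t p) = Ideal.Quotient.mkₐ k F (Ideal.Quotient.mkₐ k I p ⊗ₜ 1) at h1
        have h2 : Ideal.Quotient.mkₐ k I p = 0 := Ideal.Quotient.eq_zero_iff_mem.2 hp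
        rw [h1, h2, TensorProduct.zero_tmul, map_zero]
      exact this ha)
  have hγ : ∀ a, γ (Ideal.Quotient.mkₐ k I' a) = γ₀ a := fun a => rfl
  AlgEquiv.ofAlgHom β γ
    (by
      apply Ideal.Quotient.algHom_ext
      apply AlgHom.ext
      intro a
      change β (γ (Ideal.Quotient.mkₐ k I' a)) = Ideal.Quotient.mkₐ k I' a
      rw [hγ]
      change β (Ideal.Quotient.mkₐ k F (1 ⊗ₜ a)) = _
      rw [hβ, Algebra.TensorProduct.lift_tmul, map_one, one_mul])
    (by
      apply Ideal.Quotient.algHom_ext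
      apply Algebra.TensorProduct.ext
      · apply Ideal.Quotient.algHom_ext
        apply MvPolynomial.algHom_ext
        intro j
        change γ (β (Ideal.Quotient.mkₐ k F (Ideal.Quotient.mkₐ k I (X j) ⊗ₜ 1))) =
          Ideal.Quotient.mkₐ k F (Ideal.Quotient.mkₐ k I (X j) ⊗ₜ 1)
        rw [hβ, Algebra.TensorProduct.lift_tmul, map_one, mul_one, hα, hγ]
        exact DFunLike.congr_fun hγ₀ (X j)
      · apply AlgHom.ext
        intro a
        change γ (β (Ideal.Quotient.mkₐ k F (1 ⊗ₜ a))) = Ideal.Quotient.mkₐ k F (1 ⊗ₜ a)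
        rw [hβ, Algebra.TensorProduct.lift_tmul, map_one, one_mul, hγ]
        rfl)

/-- fibre products with affine spaces are given by polynomials over the base -/
noncomputable def polyIso {J σ : Type} (t : J → MvPolynomial σ k) (R : Type) [CommRing R]
    [Algebra k R] (φ : J → R) :
    Fib k t R φ ≃ₐ[k] (MvPolynomial σ R ⧸
      Ideal.span (Set.range fun j => map (algebraMap k R) (t j) - C (φ j))) :=
  Ideal.quotientEquivAlg _ _ ((algebraTensorAlgEquiv (σ := σ) k R).restrictScalars k) (by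
    rw [relIdeal, Ideal.map_span, ← Set.range_comp]
    congr 2
    ext1 j
    change _ = algebraTensorAlgEquiv (σ := σ) k R ((1 : R) ⊗ₜ t j - φ j ⊗ₜ 1)
    rw [map_sub, algebraTensorAlgEquiv_tmul, algebraTensorAlgEquiv_tmul, one_smul, map_one,
      Algebra.smul_def, mul_one]
    rfl)

variable {M : ∀ (A : Type) [CommRing A] [Algebra k A], Prop}

/-- the properties of a polynomial `f` which are inherited -/
structure Inner (M : ∀ (A : Type) [CommRing A] [Algebra k A], Prop) {ι : Type}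
    (f : MvPolynomial ι k) (m : ℤ) : Prop where
  finite : Finite ι
  fe : ∃ w, FE f w m
  tame : ∃ (w : ι → ℤ) (d : ℤ), (d : k) ≠ 0 ∧ FE f w d
  mem : ∀ ε : k, (ε = 0 ∨ ε = 1) → M (MvPolynomial ι k ⧸ Ideal.span {f - C ε})

theorem Inner.fib (hM : TClass k M) {J : Type} [Finite J] {ι : J → Type}
    {f : ∀ j, MvPolynomial (ι j) k} {m : J → ℤ} (hf : ∀ j, Inner M (f j) (m j)) (R : Type)
    [CommRing R] [Algebra k R] (hR : Algebra.FiniteType k R) (hR1 : ringKrullDim R ≤ 1)
    (φ : J → R) :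
    M (Fib (A := MvPolynomial (Σ j, ι j) k) k (fun j => rename (Sigma.mk j) (f j)) R φ) := by
  have h1 : ∀ j, Finite (ι j) := fun j => (hf j).finite
  choose w d hd hw using fun j => (hf j).tame
  refine fib_mem hM (torusAct_sigma hw) hd ?_ R hR hR1 φ
  intro ε hε
  have h2 := prod_mem hM J ι (fun j => f j - C (ε j)) (fun j => (hf j).mem (ε j) (hε j))
  have h3 : (fun j => rename (Sigma.mk j) (f j - C (ε j))) =
      fun j => (rename (Sigma.mk j) (f j) - C (ε j) : MvPolynomial (Σ j, ι j) k) := by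
    funext j
    exact (map_sub (rename (Sigma.mk j)) (f j) (C (ε j))).trans (by rw [rename_C])
  rw [h3] at h2
  exact h2

theorem Inner.surface (hM : TClass k M) {ι : Fin 2 → Type} {f : ∀ j, MvPolynomial (ι j) k}
    {m : Fin 2 → ℤ} (hf : ∀ j, Inner M (f j) (m j)) {h : MvPolynomial (Fin 2) k} (hh : h ≠ 0) :
    M (MvPolynomial (Σ j, ι j) k ⧸
      Ideal.span {aeval (fun j => rename (Sigma.mk j) (f j)) h}) := by
  have h1 := Inner.fib hM hf (MvPolynomial (Fin 2) k ⧸ Ideal.span {h}) inferInstance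
    (dim_plane_curve_le hh) (fun j => Ideal.Quotient.mkₐ k _ (X j))
  have h2 := hM.iso _ _ (pullIso _ _) h1
  rw [Ideal.map_span, Set.image_singleton] at h2
  exact h2

theorem inner_of_readOnce (hM : TClass k M) {ι : Type} {f : MvPolynomial ι k} {m : ℤ}
    (h : ReadOnce k ι f m) : Inner M f m := by
  induction h with
  | var m =>
    refine ⟨inferInstance, ⟨fun _ => m, ?_⟩, ⟨fun _ => 1, 1, by simp, ?_⟩, ?_⟩
    · intro W _ _ u x
      simp
    · intro W _ _ u x
      simp
    · intro ε _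
      apply hM.curve
      · infer_instance
      · refine (ringKrullDim_quotient_le _).trans ?_
        rw [MvPolynomial.ringKrullDim_of_isNoetherianRing, ringKrullDim_eq_zero_of_field]
        simp
  | gate ι f m h n hf hh hw hn ih =>
    have h1 : ∀ j, Finite (ι j) := fun j => (ih j).finite
    choose w hw2 using fun j => (ih j).fe
    refine ⟨inferInstance, ⟨_, FE.comp hw2 (FE.of_homogeneous hw)⟩,
      ⟨_, n, hn, FE.comp hw2 (FE.of_homogeneous hw)⟩, ?_⟩
    intro ε hε
    have h2 : h - C ε ≠ 0 := by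
      intro h3
      rw [sub_eq_zero] at h3
      rcases hε with rfl | rfl
      · exact hh (by rw [h3, C_0])
      · have h4 : coeff 0 h ≠ 0 := by rw [h3]; simp
        have h5 := hw h4
        rw [map_zero] at h5
        exact hn (by rw [← h5, Int.cast_zero])
    have h3 := Inner.surface hM ih h2
    rw [map_sub, aeval_C] at h3
    exact h3

end

end Pool.Agent.Helper62.TS
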