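import Pool.Agent.Helper62.TS.Main1

/-!
# Weighted homogeneous polynomials and torus actions
-/

namespace Pool.Agent.Helper62.TS

open TensorProduct MvPolynomial

section

variable {k : Type} [Field k]

/-- the functional equation of a weighted homogeneous polynomial -/
def FE {ι : Type} (f : MvPolynomial ι k) (w : ι → ℤ) (m : ℤ) : Prop :=
  ∀ (W : Type) [CommRing W] [Algebra k W] (u : Wˣ) (x : ι → W),
    aeval (fun i => ((u ^ w i : Wˣ) : W) * x i) f = ((u ^ m : Wˣ) : W) * aeval x f

theorem FE.of_homogeneous {ι : Type} {f : MvPolynomial ι k} {w : ι → ℤ} {m : ℤ}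
    (h : IsWeightedHomogeneous w f m) : FE f w m := by
  intro W _ _ u x
  rw [aeval_def, aeval_def, eval₂_eq, eval₂_eq, Finset.mul_sum]
  apply Finset.sum_congr rfl
  intro d hd
  have h1 : Finsupp.weight w d = m := h (mem_support_iff.1 hd)
  have h2 : ((u ^ m : Wˣ) : W) = ∏ i ∈ d.support, (((u ^ w i : Wˣ) : W)) ^ d i := by
    rw [← h1, Finsupp.weight_apply, Finsupp.sum]
    have : ∀ s : Finset ι, ((u ^ (∑ i ∈ s, d i • w i) : Wˣ) : W) =
        ∏ i ∈ s, (((u ^ w i : Wˣ) : W)) ^ d i := by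
      classical
      intro s
      induction s using Finset.induction_on with
      | empty => simp
      | insert a s ha ih =>
        rw [Finset.sum_insert ha, Finset.prod_insert ha, zpow_add, Units.val_mul, ih]
        congr 1
        rw [← Units.val_pow_eq_pow_val, ← zpow_natCast, ← zpow_mul, nsmul_eq_mul, mul_comm]
    exact this _
  rw [h2]
  simp_rw [mul_pow, Finset.prod_mul_distrib]
  ring

theorem FE.comp {J : Type} {ι : J → Type} {f : ∀ j, MvPolynomial (ι j) k}
    {w : ∀ j, ι j → ℤ} {m : J → ℤ} (hf : ∀ j, FE (f j) (w j) (m j)) {h : MvPolynomial J k} {n : ℤ}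
    (hh : FE h m n) :
    FE (aeval (fun j => rename (Sigma.mk j) (f j)) h : MvPolynomial (Σ j, ι j) k)
      (fun p => w p.1 p.2) n := by
  intro W _ _ u x
  have h1 : ∀ y : (Σ j, ι j) → W,
      aeval y (aeval (fun j => rename (Sigma.mk j) (f j)) h : MvPolynomial (Σ j, ι j) k) =
        aeval (fun j => aeval (fun i => y ⟨j, i⟩) (f j)) h := by
    intro y
    rw [← AlgHom.comp_apply, comp_aeval]
    congr 1
    congr 1
    funext j
    rw [aeval_rename]
    rfl
  rw [h1, h1, ← hh W u]
  congr 1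
  congr 1
  funext j
  exact hf j W u _

theorem torusAct_sigma {J : Type} {ι : J → Type} {f : ∀ j, MvPolynomial (ι j) k}
    {w : ∀ j, ι j → ℤ} {m : J → ℤ} (hf : ∀ j, FE (f j) (w j) (m j)) :
    TorusAct (A := MvPolynomial (Σ j, ι j) k) k (fun j => rename (Sigma.mk j) (f j)) m := by
  intro W _ _ u
  let c : (Σ j, ι j) → Wˣ := fun p => u p.1 ^ w p.1 p.2
  let θ : MvPolynomial (Σ j, ι j) W ≃ₐ[W] MvPolynomial (Σ j, ι j) W :=
    AlgEquiv.ofAlgHom (aeval fun p => C (c p : W) * X p) (aeval fun p => C ((c p)⁻¹ : Wˣ).1 * X p)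
      (by
        apply MvPolynomial.algHom_ext
        intro p
        simp [← mul_assoc, ← C_mul])
      (by
        apply MvPolynomial.algHom_ext
        intro p
        simp [← mul_assoc, ← C_mul])
  let e := algebraTensorAlgEquiv (σ := Σ j, ι j) k W
  refine ⟨(e.trans θ).trans e.symm, ?_⟩
  intro j
  rw [AlgEquiv.trans_apply, AlgEquiv.symm_apply_eq, AlgEquiv.trans_apply]
  rw [algebraTensorAlgEquiv_tmul, algebraTensorAlgEquiv_tmul, one_smul]
  have h1 : ∀ g : MvPolynomial (Σ j, ι j) k, θ (map (algebraMap k W) g) =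
      aeval (fun p => C (c p : W) * X p) g := by
    intro g
    change aeval _ (map (algebraMap k W) g) = _
    rw [aeval_map_algebraMap]
  rw [h1, aeval_rename, map_rename]
  have h2 := hf j (MvPolynomial (Σ j, ι j) W) (Units.map (C : W →+* _).toMonoidHom (u j))
    (fun i => X ⟨j, i⟩)
  have h3 : (fun p => C (c p : W) * X p : (Σ j, ι j) → MvPolynomial (Σ j, ι j) W) ∘ Sigma.mk j =
      fun i => ((Units.map (C : W →+* _).toMonoidHom (u j) ^ w j i :
        (MvPolynomial (Σ j, ι j) W)ˣ) : MvPolynomial (Σ j, ι j) W) * X ⟨j, i⟩ := by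
    funext i
    rw [← map_zpow]
    rfl
  rw [h3, h2, ← map_zpow]
  rw [MvPolynomial.smul_eq_C_mul]
  congr 1
  rw [← aeval_map_algebraMap W]
  have h4 : (aeval (fun i => X ⟨j, i⟩) : MvPolynomial (ι j) W →ₐ[W] MvPolynomial (Σ j, ι j) W) =
      rename (Sigma.mk j) := by
    apply MvPolynomial.algHom_ext
    intro i
    simp
  rw [h4]

end

end Pool.Agent.Helper62.TS
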